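import Pool.Agent.ETCH.End
import Pool.Agent.ETCH.PProj
import Pool.Agent.ETCG.FewQS

/-!
# Commutative value groups containing `-1` (helper13)
-/

set_option autoImplicit false
set_option linter.unusedSimpArgs false
set_option linter.unusedVariables false
set_option linter.unusedSectionVars false
set_option linter.unnecessarySeqFocus false

namespace Pool.Agent.ETCH

open QS
open Pool.Agent.Helper58.PLine (QData)
open Pool.Agent.ETCP
open Pool.Agent.ETCG (cof C.diag C.diag' Rg Bir Dec)
open Pool.Agent.ETCMR (IsProd IsExt)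



section data

variable {V Q : Type} [AddCommGroup V] [Module (ZMod 2) V] {S : QData V Q}

theorem comm_e [Finite V] (hnd : ∀ x, (∀ y, C S x y) → x = 0) {p : V} (hp : p ≠ 0)
    (X : Cm S p) : (∃ x, Bir S x) ∨ Dec S := by
  rcases comm_data X with ⟨v, Rv⟩ | h | ⟨e0, h1, h2, h3, h4⟩
  · apply ETCG.rigid Rv
    by_contra hno
    push Not at hno
    exact Rv.ne0 (hnd v hno)
  · rcases h S.e X.pe with he | he
    · left
      refine ⟨p, ⟨hp, fun h' => hp (h'.trans he), ?_⟩, ?_⟩
      · intro y hy
        exact h y (by rw [he, add_zero] at hy; exact hy)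
      · intro y hy
        rcases h y hy with h' | h'
        · exact Or.inl h'
        · right; rw [h', he, add_zero]
    · rcases ETCG.few (S := S) (by
        intro a b ha hb ha0 hb0
        rw [he] at ha hb
        rcases h a ha with h' | h'
        · exact absurd h' ha0
        · rcases h b hb with h'' | h''
          · exact absurd h'' hb0
          · rw [h', h'']) with h' | h' | ⟨r, hr, hr'⟩ | h'
      · exact Or.inl h'
      · exact Or.inr h'
      · exact absurd (hnd r hr') hr
      · exfalso
        apply hp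
        apply hnd
        intro y
        rcases h' y with h'' | h''
        · rw [h'']; exact C.zero p
        · rw [h'']; exact X.pe
  · right
    have Y : Ctx S p e0 (e0 + p) := ⟨X.pe, by (apply eo; abel_nf; try simp only [ch2, ch3, ch4, ch5, ch6, add_zero, zero_add]), h1, X.comm, fun w => by
      obtain ⟨θ, a1, a2⟩ := h4 w
      exact ⟨θ, w + θ, a1, a2, by (apply eo; abel_nf; try simp only [ch2, ch3, ch4, ch5, ch6, add_zero, zero_add])⟩⟩
    obtain ⟨A, B, hAB, hc, hq, hA, hB⟩ := Y.decomp hnd
    refine ⟨A, B, ?_, ?_, hAB, hc, ?_⟩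
    · intro h
      rw [h, Submodule.mem_bot] at hA
      exact h2 hA
    · intro h
      rw [h, Submodule.mem_bot] at hB
      exact h3 (eo hB)
    · intro a ha b hb c hcc
      have : c ∈ A ⊔ B := by rw [hAB.sup_eq_top]; trivial
      obtain ⟨a', ha', b', hb', rfl⟩ := Submodule.mem_sup.1 this
      exact (hq a ha b hb a' ha' b' hb' hcc).1.add (hc a ha b' hb')

end data

/-- **Theorem.** A finite nondegenerate quaternionic structure with an element `p ≠ 1` such that
`V_p` is commutative and contains `-1` is a group extension or a product. -/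
theorem comm_struct (S : QStruct) [Finite S.G]
    (hnd : ∀ a, (∀ b, S.q a b = S.zero) → a = 1) {p : S.G} (hp : p ≠ 1)
    (hpe : S.q p S.neg = S.zero)
    (hcomm : ∀ g h, S.q p g = S.zero → S.q p h = S.zero → S.q g h = S.zero) :
    IsExt S ∨ IsProd S := by
  have hfin : Finite (Additive S.G) := (inferInstance : Finite S.G)
  have X : Cm (ETC.toData S) (Additive.ofMul p) := ⟨hpe, fun g h hg hh => hcomm _ _ hg hh⟩
  rcases comm_e (S := ETC.toData S) (fun x hx => hnd (Additive.toMul x)
    (fun b => hx (Additive.ofMul b))) (fun h => hp h) X with ⟨x, hx⟩ | h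
  · exact Or.inl (ETCG.isExt_of_bir S (x := Additive.toMul x) hx)
  · exact Or.inr (ETCG.isProd_of_dec S h)

/-- induction step -/
theorem elem_of_comm (S : QStruct) [Finite S.G]
    (hT : ∀ T : QStruct, Finite T.G → Nat.card T.G < Nat.card S.G → ElemType T)
    {p : S.G} (hp : p ≠ 1) (hpe : S.q p S.neg = S.zero)
    (hcomm : ∀ g h, S.q p g = S.zero → S.q p h = S.zero → S.q g h = S.zero) : ElemType S := by
  by_cases hnd : ∀ a, (∀ b, S.q a b = S.zero) → a = 1
  · rcases comm_struct S hnd hp hpe hcomm with h | h
    · exact ETCMR.elem_of_ext S hT h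
    · exact ETCMR.elem_of_prod S hT h
  · push Not at hnd
    obtain ⟨r, hr0, hr⟩ := hnd
    exact ETCMR.elem_of_rad S hT hr hr0

/-- `-1` and the elements `a` with `q (-1, a) = 0` commute pairwise -/
def CH (S : QStruct) : Prop := S.q S.neg S.neg = S.zero ∧
  ∀ a b, S.q S.neg a = S.zero → S.q S.neg b = S.zero → S.q a b = S.zero

theorem CH_iso {S T : QStruct} (hi : Iso S T) (h : CH T) : CH S := by
  obtain ⟨φ, h1, h2⟩ := hi
  have key := ETCG.iso_zero' h2
  constructor
  · rw [key, h1]; exact h.1
  · intro a b ha hb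
    rw [key] at ha hb ⊢
    rw [h1] at ha hb
    exact h.2 _ _ ha hb

theorem CH_left {A B : QStruct} (h : CH (prod A B)) : CH A := by
  have key : ∀ x y : A.G, (prod A B).q ((x, 1) : A.G × B.G) ((y, 1) : A.G × B.G) =
      (prod A B).zero ↔ A.q x y = A.zero := by
    intro x y
    show (A.q x y, B.q 1 1) = (A.zero, B.zero) ↔ _
    rw [B.q_one, Prod.mk.injEq]
    exact ⟨fun h => h.1, fun h => ⟨h, rfl⟩⟩
  have keyn : ∀ y : A.G, (prod A B).q (prod A B).neg ((y, 1) : A.G × B.G) =
      (prod A B).zero ↔ A.q A.neg y = A.zero := by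
    intro y
    show (A.q A.neg y, B.q B.neg 1) = (A.zero, B.zero) ↔ _
    rw [B.q_one, Prod.mk.injEq]
    exact ⟨fun h => h.1, fun h => ⟨h, rfl⟩⟩
  constructor
  · exact congrArg Prod.fst h.1
  · intro a b ha hb
    exact (key a b).1 (h.2 _ _ ((keyn a).2 ha) ((keyn b).2 hb))

theorem CH_right {A B : QStruct} (h : CH (prod A B)) : CH B := by
  have key : ∀ x y : B.G, (prod A B).q ((1, x) : A.G × B.G) ((1, y) : A.G × B.G) =
      (prod A B).zero ↔ B.q x y = B.zero := by
    intro x y
    show (A.q 1 1, B.q x y) = (A.zero, B.zero) ↔ _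
    rw [A.q_one, Prod.mk.injEq]
    exact ⟨fun h => h.2, fun h => ⟨rfl, h⟩⟩
  have keyn : ∀ y : B.G, (prod A B).q (prod A B).neg ((1, y) : A.G × B.G) =
      (prod A B).zero ↔ B.q B.neg y = B.zero := by
    intro y
    show (A.q A.neg 1, B.q B.neg y) = (A.zero, B.zero) ↔ _
    rw [A.q_one, Prod.mk.injEq]
    exact ⟨fun h => h.2, fun h => ⟨rfl, h⟩⟩
  constructor
  · exact congrArg Prod.snd h.1
  · intro a b ha hb
    exact (key a b).1 (h.2 _ _ ((keyn a).2 ha) ((keyn b).2 hb))

theorem CH_ext {T : QStruct} (h : CH (ext T)) : CH T := by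
  have key : ∀ x y : T.G, (ext T).q ((x, 1) : T.G × Multiplicative (ZMod 2))
      ((y, 1) : T.G × Multiplicative (ZMod 2)) = (ext T).zero ↔ T.q x y = T.zero := by
    intro x y
    constructor
    · intro e
      have e1 : extMap T (x, 1) (y, 1) = (T.zero, 1) := congrArg Subtype.val e
      rw [extMap_one_one] at e1
      exact congrArg Prod.fst e1
    · intro e
      apply Subtype.ext
      show extMap T (x, 1) (y, 1) = (T.zero, 1)
      rw [extMap_one_one, e]
  constructor
  · exact (key _ _).1 h.1
  · intro a b ha hb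
    exact (key a b).1 (h.2 _ _ ((key _ _).2 ha) ((key _ _).2 hb))

theorem commH_elem : ∀ n : ℕ, ∀ S : QStruct, Finite S.G → Nat.card S.G = n → CH S →
    ElemType S := by
  intro n
  induction n using Nat.strong_induction_on with
  | _ n ih =>
    intro S hf hn hS
    have hpos : 0 < Nat.card S.G := Nat.card_pos
    have hprod : ∀ A B : QStruct, 2 ≤ Nat.card A.G → 2 ≤ Nat.card B.G → Iso (prod A B) S →
        ElemType S := by
      intro A B hA2 hB2 hi
      have hc : Nat.card A.G * Nat.card B.G = Nat.card S.G := by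
        obtain ⟨φ, -, -⟩ := hi
        rw [← Nat.card_congr φ.toEquiv]
        show _ = Nat.card (A.G × B.G)
        rw [Nat.card_prod]
      have hfA : Finite A.G := Nat.finite_of_card_ne_zero (by omega)
      have hfB : Finite B.G := Nat.finite_of_card_ne_zero (by omega)
      have hP : CH (prod A B) := CH_iso hi hS
      refine ElemType.iso _ S hi (ElemType.prod A B ?_ ?_)
      · exact ih _ (by rw [← hn, ← hc]; nlinarith) A hfA rfl (CH_left hP)
      · exact ih _ (by rw [← hn, ← hc]; nlinarith) B hfB rfl (CH_right hP)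
    have hext : ∀ T : QStruct, Iso S (ext T) → ElemType S := by
      intro T hi
      have hc : 2 * Nat.card T.G = Nat.card S.G := by
        obtain ⟨φ, -, -⟩ := hi
        rw [Nat.card_congr φ.toEquiv]
        show _ = Nat.card (T.G × Multiplicative (ZMod 2))
        rw [Nat.card_prod, Nat.card_eq_fintype_card (α := Multiplicative (ZMod 2)),
          Fintype.card_multiplicative, ZMod.card, mul_comm]
      have hfT : Finite T.G := Nat.finite_of_card_ne_zero (by omega)
      have hP : CH (ext T) := CH_iso (ETCG.iso_symm hi) hS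
      exact ElemType.iso _ S (ETCG.iso_symm hi)
        (ElemType.ext T (ih _ (by omega) T hfT rfl (CH_ext hP)))
    by_cases hnd : ∀ a, (∀ b, S.q a b = S.zero) → a = 1
    · by_cases hneg : S.neg = 1
      · -- all of `G` commutes
        apply ElemType.L0
        rw [Nat.card_eq_one_iff_unique]
        refine ⟨⟨fun a b => ?_⟩, ⟨1⟩⟩
        have key : ∀ x : S.G, x = 1 := by
          intro x
          apply hnd
          intro b
          apply hS.2
          · rw [hneg, S.qs2, S.q_one]
          · rw [hneg, S.qs2, S.q_one]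
        rw [key a, key b]
      · rcases comm_struct S hnd hneg hS.1 hS.2 with ⟨T, hT⟩ | ⟨A, B, hA, hB, hi⟩
        · exact hext T hT
        · exact hprod A B hA hB hi
    · push Not at hnd
      obtain ⟨r, hr2, hr1⟩ := hnd
      obtain ⟨T, L, c1, c2, -, -, c3, c4⟩ := ETCM.rad_split S hr1 hr2
      have hL : ElemType L := by
        by_cases h : L.neg = 1
        · exact ElemType.L10 L c1 h c2
        · exact ElemType.L11 L c1 h c2
      have hfT : Finite T.G := Nat.finite_of_card_ne_zero (by omega)
      have hP : CH (prod T L) := CH_iso c4 hS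
      exact ElemType.iso _ S c4 (ElemType.prod T L (ih _ (by omega) T hfT rfl (CH_left hP)) hL)

end Pool.Agent.ETCH
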