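import Pool.Agent.ETCH.Fin

/-!
# Commutative value groups containing `-1`: a rigid element or a splitting (after helper50)
-/

set_option autoImplicit false
set_option linter.unusedSimpArgs false
set_option linter.unusedVariables false
set_option linter.unusedSectionVars false
set_option linter.unnecessarySeqFocus false

namespace Pool.Agent.ETCH

open Pool.Agent.Helper58.PLine (QData)
open Pool.Agent.ETCP
open Pool.Agent.ETCG (cof C.diag C.diag')





variable {V Q : Type} [AddCommGroup V] [Module (ZMod 2) V] {S : QData V Q}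

theorem K0.add {p z c c' : V} (h1 : K0 S p z c) (h2 : K0 S p z c') : K0 S p z (c + c') := by
  obtain ⟨k, hk, e⟩ := h1
  obtain ⟨k', hk', e'⟩ := h2
  exact ⟨k + k', hk.add hk', (e.add e').of_eq rfl (by apply eo; abel_nf; try simp only [ch2, ch3, ch4, ch5, ch6, add_zero, zero_add])⟩

theorem K0.of_E {p z c : V} (h : C S p c) : K0 S p z c := ⟨c, h, (C.zero _).of_eq rfl (by apply eo; abel_nf; try simp only [ch2, ch3, ch4, ch5, ch6, add_zero, zero_add])⟩

variable (S) in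
/-- `V_p` -/
def Esub (p : V) : Submodule (ZMod 2) V :=
  mkSub (fun c => C S p c) (C.zero p) (fun a b ha hb => C.add ha hb)

variable (S) in
/-- `V_z + V_p` -/
def Ksub (p z : V) : Submodule (ZMod 2) V :=
  mkSub (fun c => K0 S p z c) (K0.of_E (C.zero p)) (fun a b ha hb => K0.add ha hb)

namespace Cm

variable {p : V} (X : Cm S p)
include X

theorem K0_self {z h : V} (hh : C S p h) : K0 S p (z + h) z :=
  ⟨h + S.e, hh.add X.pe, (dg (z + h)).of_eq rfl (by apply eo; abel_nf; try simp only [ch2, ch3, ch4, ch5, ch6, add_zero, zero_add])⟩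

theorem Gin_of_K0 {z h c : V} (hh : C S p h) (h1 : K0 S p (z + h) c) : Gin S p z c :=
  ⟨h, hh, h1⟩

theorem Gin_self {z : V} : Gin S p z z := ⟨0, C.zero p, X.K0_self (C.zero p)⟩

/-- `G_z` -/
def Gsub (z : V) : Submodule (ZMod 2) V :=
  mkSub (fun c => Gin S p z c) ⟨0, C.zero p, K0.of_E (C.zero p)⟩ (fun a b ha hb => X.Gin_add ha hb)

end Cm

open Finset Classical in
theorem even_card [Finite V] {A : Submodule (ZMod 2) V} (h : A ≠ ⊥) (F : Finset V)
    (hF : ∀ x, x ∈ F ↔ x ∈ A) : Even F.card := by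
  have := Fintype.ofFinite V
  have h1 := two_dvd (bot_lt_iff_ne_bot.2 h)
  have h2 : Nat.card (⊥ : Submodule (ZMod 2) V) = 1 := by simp
  rw [h2, mul_one, ← card_filter_sub] at h1
  have h3 : F = univ.filter (fun c => c ∈ A) := by
    ext x
    rw [hF, mem_filter]
    simp
  rw [h3]
  exact even_iff_two_dvd.2 h1

namespace Lc

variable {p e0 : V} (X : Lc S p e0)
include X

theorem Esub_ne_bot : Esub S p ≠ ⊥ := by
  intro h
  have : e0 ∈ Esub S p := X.h1
  rw [h, Submodule.mem_bot] at this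
  exact X.h2 this

/-- case A -/
theorem caseA [Finite V] {z : V} (hz : ¬ Kf S p e0 z)
    (hA : ∀ c, Gin S p z c → Kf S p e0 c → C S p c) :
    ∃ h, C S p h ∧ ∀ c, K0 S p (z + h) c → C S p c ∨ C S p (c + z) := by
  classical
  have := Fintype.ofFinite V
  let E' : Submodule (ZMod 2) V := mkSub (fun c => C S p c ∨ C S p (c + z)) (Or.inl (C.zero p)) (by
    rintro a b (h1 | h1) (h2 | h2)
    · exact Or.inl (h1.add h2)
    · exact Or.inr ((h1.add h2).of_eq rfl (by apply eo; abel_nf; try simp only [ch2, ch3, ch4, ch5, ch6, add_zero, zero_add]))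
    · exact Or.inr ((h1.add h2).of_eq rfl (by apply eo; abel_nf; try simp only [ch2, ch3, ch4, ch5, ch6, add_zero, zero_add]))
    · exact Or.inl ((h1.add h2).of_eq rfl (by apply eo; abel_nf; try simp only [ch2, ch3, ch4, ch5, ch6, add_zero, zero_add])))
  have hE'K : ∀ h, C S p h → E' ≤ Ksub S p (z + h) := by
    rintro h hh c (h1 | h1)
    · exact K0.of_E h1
    · exact ⟨c + z + h + S.e, (h1.add hh).add X.pe, (dg (z + h)).of_eq rfl (by apply eo; abel_nf; try simp only [ch2, ch3, ch4, ch5, ch6, add_zero, zero_add])⟩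
  have hKG : ∀ h, C S p h → Ksub S p (z + h) ≤ X.X'.Gsub z :=
    fun h hh c hc => X.X'.Gin_of_K0 hh hc
  have hEM : E' ≤ X.X'.Gsub z := (hE'K 0 (C.zero p)).trans (hKG 0 (C.zero p))
  by_cases heq : E' = X.X'.Gsub z
  · refine ⟨0, C.zero p, fun c hc => ?_⟩
    have : c ∈ X.X'.Gsub z := hKG 0 (C.zero p) hc
    rw [← heq] at this
    exact this
  · have hlt : E' < X.X'.Gsub z := lt_of_le_of_ne hEM heq
    let F : Finset V := Finset.univ.filter (fun h => C S p h)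
    have hF : ∀ x, x ∈ F ↔ x ∈ Esub S p := by
      intro x
      rw [Finset.mem_filter]
      exact ⟨fun h => h.2, fun h => ⟨Finset.mem_univ _, h⟩⟩
    obtain ⟨h, hh, h1⟩ := partition E' (X.X'.Gsub z) (fun h => Ksub S p (z + h)) F
      (even_card X.Esub_ne_bot F hF) hlt (fun h hh => hE'K h ((hF h).1 hh)) (by
        intro c hc hcE
        obtain ⟨h, hh, hk⟩ := id hc
        refine ⟨h, (hF h).2 hh, hk, fun h' hh' hk' => ?_⟩
        have hc1 : ¬ Kf S p e0 c := fun h1 => hcE (Or.inl (hA c hc h1))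
        have hc2 : ¬ Kf S p e0 (c + z) := fun h1 =>
          hcE (Or.inr (hA _ (X.X'.Gin_add hc X.X'.Gin_self) h1))
        have h3 := (X.X'.Kin_iff (y := z) (c := c) hh ((hF h').1 hh') hk).1 hk'
        exact (eo (X.omF2 hz hc1 hc2 (hh.add ((hF h').1 hh')) h3)).symm)
    refine ⟨h, (hF h).1 hh, fun c hc => ?_⟩
    exact h1 ⟨hc, hKG h ((hF h).1 hh) hc⟩

/-- case B -/
theorem caseB [Finite V] {z : V} (hz : ¬ Kf S p e0 z)
    (hB : ∃ c, Gin S p z c ∧ Kf S p e0 c ∧ ¬ C S p c) :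
    ∃ z1, ¬ Kf S p e0 z1 ∧ ∃ h, C S p h ∧ ∀ c, K0 S p (z1 + h) c → C S p c ∨ C S p (c + z1) := by
  classical
  have := Fintype.ofFinite V
  -- an element with `X ≠ 0`
  have hB' : ∃ c, (Gin S p z c ∧ Kf S p e0 c ∧ ¬ C S p c) ∧ ∃ h, C S p h ∧ h ≠ 0 ∧ C S h c := by
    obtain ⟨c, hG, hc, hcp⟩ := hB
    obtain ⟨h, hh, hk⟩ := id hG
    obtain ⟨θ, h1, h2⟩ := id hc
    have hzh : ¬ Kf S p e0 (z + h) := X.notHs hz (X.hsE hh)
    have hKθ := X.l6b hzh hc hk X.h1 h1 h2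
    obtain ⟨b1, b2⟩ := X.X'.ba2 X.h1 X.h1 h1 h2 hc
    by_cases hpθ : C S p θ
    · refine ⟨c + θ, ⟨X.X'.Gin_add hG (X.X'.Gin_of_K0 hh hKθ), b2, fun h3 => hcp ?_⟩,
        e0, X.h1, X.h2, h2⟩
      exact (h3.add hpθ).of_eq rfl (by apply eo; abel_nf; try simp only [ch2, ch3, ch4, ch5, ch6, add_zero, zero_add])
    · exact ⟨θ, ⟨X.X'.Gin_of_K0 hh hKθ, b1, hpθ⟩, e0 + p, X.h1.add X.X'.pp,
        fun h3 => X.h3 (eo h3), h1⟩
  obtain ⟨c0, ⟨⟨hG0, hs0, hp0⟩, d0, hd0, hd00, hd0c⟩, hmin⟩ := exmin _ (rk S p) hB'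
  obtain ⟨h0, hh0, hk0⟩ := id hG0
  have hz1 : ¬ Kf S p e0 (z + h0) := X.notHs hz (X.hsE hh0)
  refine ⟨z + h0, hz1, ?_⟩
  have hk0' : K0 S p (z + h0) c0 := hk0
  -- maximality
  have hmax : ∀ s, Kf S p e0 s → ¬ C S p s → ∀ e, C S p e → C S e s → C S e c0 := by
    intro s hs hsp e he hes
    by_contra hec
    obtain ⟨h1, h2⟩ := X.l6c' hz1 hs0 hk0' hs he hes hec
    have h3 := hmin s ⟨⟨X.X'.Gin_of_K0 hh0 h2, hs, hsp⟩, d0, hd0, hd00, h1 _ hd0 hd0c⟩
    have h4 := rk_lt (S := S) (p := p) (w := c0) (θ := s) h1 ⟨e, he, hes, hec⟩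
    omega
  let D : Submodule (ZMod 2) V := mkSub (fun h => C S p h ∧ C S h c0) ⟨C.zero p, C.zero' c0⟩
    (fun a b ha hb => ⟨ha.1.add hb.1, ha.2.add' hb.2⟩)
  obtain ⟨F0, hF0⟩ := Submodule.exists_isCompl D
  have hDE : D ≤ Esub S p := fun h hh => hh.1
  have hsup : D ⊔ F0 ⊓ Esub S p = Esub S p := by
    rw [← sup_inf_assoc_of_le F0 hDE, hF0.sup_eq_top, top_inf_eq]
  have hFne : F0 ⊓ Esub S p ≠ ⊥ := by
    intro h
    rw [h, sup_bot_eq] at hsup
    have : p ∈ D := by rw [hsup]; exact X.X'.pp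
    exact hp0 this.2
  let F : Finset V := Finset.univ.filter (fun h => h ∈ F0 ⊓ Esub S p)
  have hF : ∀ x, x ∈ F ↔ x ∈ F0 ⊓ Esub S p := by
    intro x
    rw [Finset.mem_filter]
    exact ⟨fun h => h.2, fun h => ⟨Finset.mem_univ _, h⟩⟩
  have hFE : ∀ x, x ∈ F → C S p x := fun x hx => ((hF x).1 hx).2
  let M : Submodule (ZMod 2) V := mkSub (fun c => Gin S p z c ∧ Kf S p e0 c ∧ ∀ d ∈ D, C S d c)
    ⟨⟨0, C.zero p, K0.of_E (C.zero p)⟩, X.hsE (C.zero p), fun d _ => C.zero d⟩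
    (fun a b ha hb => ⟨X.X'.Gin_add ha.1 hb.1, ha.2.1.add hb.2.1,
      fun d hd => (ha.2.2 d hd).add (hb.2.2 d hd)⟩)
  have hEM : Esub S p ≤ M := fun c hc =>
    ⟨⟨0, C.zero p, K0.of_E hc⟩, X.hsE hc, fun d hd => X.comm _ _ hd.1 hc⟩
  have hc0M : c0 ∈ M := ⟨hG0, hs0, fun d hd => hd.2⟩
  have hlt : Esub S p < M := lt_of_le_of_ne hEM (fun e => hp0 (by
    have := hc0M
    rw [← e] at this
    exact this))
  obtain ⟨h, hhF, h1⟩ := partition (Esub S p) M (fun h => Ksub S p (z + h0 + h)) F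
    (even_card hFne F hF) hlt (fun h hh c hc => K0.of_E hc) (by
      intro c hc hcE
      obtain ⟨h', hh', hk'⟩ := id hc.1
      have hh1 : h' + h0 ∈ D ⊔ F0 ⊓ Esub S p := by rw [hsup]; exact hh'.add hh0
      obtain ⟨d, hd, f, hf, hdf⟩ := Submodule.mem_sup.1 hh1
      have hkf : K0 S p (z + h0 + f) c := by
        obtain ⟨k, hk, c1⟩ := hk'
        refine ⟨k, hk, ?_⟩
        have c2 : C S d (c + k) := (hc.2.2 d hd).add (X.comm _ _ hd.1 hk)
        have e1 : z + h0 + f = z + h' + d := by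
          have : f = h' + h0 + d := by rw [← hdf]; (apply eo; abel_nf; try simp only [ch2, ch3, ch4, ch5, ch6, add_zero, zero_add])
          rw [this]; (apply eo; abel_nf; try simp only [ch2, ch3, ch4, ch5, ch6, add_zero, zero_add])
        rw [e1]
        exact c1.add' c2
      refine ⟨f, (hF f).2 hf, hkf, fun f' hf' hk'' => ?_⟩
      have h3 := (X.X'.Kin_iff (y := z + h0) (c := c) hf.2 (hFE f' hf') hkf).1 hk''
      have h4 := X.omF1 hz1 hc.2.1 (C.add hf.2 (hFE f' hf')) h3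
      have h5 := hmax c hc.2.1 hcE _ (C.add hf.2 (hFE f' hf')) h4
      have h6 : f + f' ∈ D := ⟨C.add hf.2 (hFE f' hf'), h5⟩
      have h7 : f + f' ∈ F0 := F0.add_mem hf.1 ((hF f').1 hf').1
      have h8 : f + f' ∈ D ⊓ F0 := ⟨h6, h7⟩
      rw [hF0.inf_eq_bot, Submodule.mem_bot] at h8
      exact (eo h8).symm)
  have hh := hFE h hhF
  have hzh : ¬ Kf S p e0 (z + h0 + h) := X.notHs hz1 (X.hsE hh)
  have hnc0 : ¬ K0 S p (z + h0 + h) c0 := fun h2 => hp0 (h1 ⟨h2, hc0M⟩)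
  refine ⟨h, hh, ?_⟩
  have sub : ∀ c, K0 S p (z + h0 + h) c → Kf S p e0 c → C S p c := by
    intro c hk hc
    by_contra hcp
    have hcG : Gin S p z c := by
      refine ⟨h0 + h, hh0.add hh, ?_⟩
      have : K0 S p (z + (h0 + h)) c := by rw [← add_assoc]; exact hk
      exact this
    by_cases hD : ∀ d ∈ D, C S d c
    · exact hcp (h1 ⟨hk, hcG, hc, hD⟩)
    · push Not at hD
      obtain ⟨d, hd, hdc⟩ := hD
      exact hnc0 (X.l6c' hzh hc hk hs0 hd.1 hd.2 hdc).2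
  intro y hy
  by_cases hys : Kf S p e0 y
  · exact Or.inl (sub y hy hys)
  by_cases hyz : Kf S p e0 (y + (z + h0))
  · exact Or.inr (sub _ (hy.add (X.X'.K0_self hh)) hyz)
  · exfalso
    apply hnc0
    refine X.l6a hzh hys ?_ hy hd0 hd00 hd0c
    have := X.notHs hyz (X.hsE hh)
    rwa [show y + (z + h0) + h = y + (z + h0 + h) by (apply eo; abel_nf; try simp only [ch2, ch3, ch4, ch5, ch6, add_zero, zero_add])] at this

/-- the end of the proof -/
theorem rigid [Finite V] {z : V} (hz : ¬ Kf S p e0 z) : ∃ v, ETCG.Rg S v := by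
  have key : ∃ z1, ¬ Kf S p e0 z1 ∧ ∃ h, C S p h ∧
      ∀ c, K0 S p (z1 + h) c → C S p c ∨ C S p (c + z1) := by
    by_cases hB : ∃ c, Gin S p z c ∧ Kf S p e0 c ∧ ¬ C S p c
    · exact X.caseB hz hB
    · refine ⟨z, hz, X.caseA hz ?_⟩
      intro c h1 h2
      by_contra h3
      exact hB ⟨c, h1, h2, h3⟩
  obtain ⟨z1, hz1, h, hh, H⟩ := key
  refine ⟨z1 + h + S.e, ?_, ?_, ?_⟩
  · intro h0
    apply X.notE hz1
    rw [show z1 = h + S.e from eo (by rw [← add_assoc]; exact h0)]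
    exact hh.add X.pe
  · intro h0
    apply X.notE hz1
    rw [show z1 = h from by
      have h2 : z1 = (z1 + h + S.e) + (h + S.e) := by (apply eo; abel_nf; try simp only [ch2, ch3, ch4, ch5, ch6, add_zero, zero_add])
      rw [h2, h0]; (apply eo; abel_nf; try simp only [ch2, ch3, ch4, ch5, ch6, add_zero, zero_add])]
    exact hh
  · intro y hy
    have := X.rigid_of hz1 hh H y (hy.of_eq (by apply eo; abel_nf; try simp only [ch2, ch3, ch4, ch5, ch6, add_zero, zero_add]) rfl)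
    exact this

end Lc

/-- **Theorem.** If `V_p` is commutative and contains `e`, then `V_p ⊆ {0, p}`, or there is a rigid
element, or `V = V_f + V_(f+p)` for some `f ∈ V_p`, `f ∉ {0, p}`. -/
theorem comm_data [Finite V] {p : V} (X : Cm S p) :
    (∃ v, ETCG.Rg S v) ∨ (∀ w, C S p w → w = 0 ∨ w = p) ∨
      ∃ e, C S p e ∧ e ≠ 0 ∧ e ≠ p ∧ ∀ w, ∃ θ, C S (e + p) θ ∧ C S e (w + θ) := by
  by_cases hq : ∃ q0, C S p q0 ∧ q0 ≠ 0 ∧ q0 ≠ p
  · obtain ⟨e0, h1, h2, h3, h4⟩ := X.loc hq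
    by_cases hall : ∀ w, Kf S p e0 w
    · exact Or.inr (Or.inr ⟨e0, h1, h2, h3, hall⟩)
    · push Not at hall
      obtain ⟨z, hz⟩ := hall
      left
      exact (Lc.mk X h1 h2 h3 h4).rigid hz
  · right; left
    intro w hw
    by_contra hno
    push Not at hno
    exact hq ⟨w, hw, hno.1, hno.2⟩

end Pool.Agent.ETCH
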