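import Pool.Agent.ETCH.PBasic

/-!
# Product lemma, `-1 ∈ V_p`: additivity of the shifts (after helper29)
-/

set_option autoImplicit false
set_option linter.unusedSimpArgs false
set_option linter.unusedVariables false
set_option linter.unusedSectionVars false
set_option linter.unnecessarySeqFocus false

namespace Pool.Agent.ETCH

open Pool.Agent.Helper58.PLine (QData)
open Pool.Agent.ETCP
open Pool.Agent.ETCG (cof C.diag C.diag')



variable {V Q : Type} [AddCommGroup V] [Module (ZMod 2) V] {S : QData V Q}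

namespace Ctx

variable {p v v' : V} (X : Ctx S p v v')
include X

/-- `{s : z + h' ~ s for some h' in V_p}` is closed under addition -/
theorem addW {z s1 s2 h1 h2 : V} (hz : C S v' z) (hs1 : C S v s1) (hs2 : C S v s2)
    (hh1 : C S p h1) (hh2 : C S p h2) (c1 : C S (z + h1) s1) (c2 : C S (z + h2) s2) :
    ∃ h3, C S p h3 ∧ C S (z + h3) (s1 + s2) := by
  obtain ⟨k', hk', c3⟩ := X.shift hz (hs1.add hs2)
  -- normalise: `k = h1 + h2`
  obtain ⟨a, b, ha, hb, haz, hbs, e0⟩ := X.sum hz hs1 ((hk'.add hh1).add hh2)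
  -- new `h1 := h1 + b`, `k := k' + a = h1 + b + h2`
  have ek : k' + a = h1 + b + h2 := by
    have : a = k' + h1 + h2 + b := by rw [e0]; exact (by apply eo; abel_nf; try simp only [ch2, ch3, ch4, ch5, ch6, add_zero, zero_add])
    rw [this]; exact (by apply eo; abel_nf; try simp only [ch2, ch3, ch4, ch5, ch6, add_zero, zero_add])
  have hH : C S p (h1 + b) := hh1.add hb
  have c1' : C S (z + (h1 + b)) s1 := (c1.add' hbs).of_eq (by apply eo; abel_nf; try simp only [ch2, ch3, ch4, ch5, ch6, add_zero, zero_add]) rfl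
  have c3' : C S (z + k') (s1 + s2 + (h1 + b + h2)) := by
    have : C S (z + k') (s1 + s2 + k' + a) :=
      c3.add (haz.symm.add' (X.comm _ _ hk' ha))
    refine this.of_eq rfl ?_
    rw [← ek]; exact (by apply eo; abel_nf; try simp only [ch2, ch3, ch4, ch5, ch6, add_zero, zero_add])
  clear c1 c3
  generalize h1 + b = H at *
  have hK : C S p (H + h2) := hH.add hh2
  -- `y = z + k'`
  have hg1 : C S p (H + k') := hH.add hk'
  have hg2 : C S p (h2 + k') := hh2.add hk'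
  have q1 : S.q (H + k') s1 = S.q (z + k') s1 := q_eq' (c1'.of_eq (by apply eo; abel_nf; try simp only [ch2, ch3, ch4, ch5, ch6, add_zero, zero_add]) rfl)
  have q2 : S.q (h2 + k') s2 = S.q (z + k') s2 := q_eq' (c2.of_eq (by apply eo; abel_nf; try simp only [ch2, ch3, ch4, ch5, ch6, add_zero, zero_add]) rfl)
  have q3 : S.q (z + k') (s1 + s2) = S.q (z + k') (H + h2) := q_eq c3'
  have q4 : S.q ((H + k') + (h2 + k')) (z + k') = S.q (z + k') (s1 + s2) := by
    rw [q3, S.symm]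
    have : H + k' + (h2 + k') = H + h2 := (by apply eo; abel_nf; try simp only [ch2, ch3, ch4, ch5, ch6, add_zero, zero_add])
    rw [this]
  obtain ⟨x, x1, x2⟩ := ETC.strong_link q1 q2 ⟨z + k', q4⟩
  obtain ⟨z1, σ, hz1, hσ, rfl⟩ := X.full x
  obtain ⟨a1, a2⟩ := X.split hz1 (hσ.add hs1) hg1 ((q_eq_iff.1 x1).of_eq rfl (by apply eo; abel_nf; try simp only [ch2, ch3, ch4, ch5, ch6, add_zero, zero_add]))
  obtain ⟨a3, a4⟩ := X.split hz1 (hσ.add hs2) hg2 ((q_eq_iff.1 x2).of_eq rfl (by apply eo; abel_nf; try simp only [ch2, ch3, ch4, ch5, ch6, add_zero, zero_add]))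
  have q5 : S.q (z1 + σ) ((H + k') + (h2 + k')) = S.q (z + k') (s1 + s2) := by
    apply ETC.add_common
    · rw [S.symm, x1, q1]
    · rw [S.symm, x2, q2]
  have q6 : S.q (H + h2) (z1 + σ) = S.q (H + h2) (z + k') := by
    rw [S.symm _ (z + k'), ← q3, ← q5, S.symm]
    have : H + k' + (h2 + k') = H + h2 := (by apply eo; abel_nf; try simp only [ch2, ch3, ch4, ch5, ch6, add_zero, zero_add])
    rw [this]
  have hzk : C S v' (z + k') := hz.add (X.comm _ _ X.hv' hk')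
  obtain ⟨a5, a6⟩ := X.split (hz1.add hzk) hσ hK ((q_eq_iff.1 q6).of_eq rfl (by apply eo; abel_nf; try simp only [ch2, ch3, ch4, ch5, ch6, add_zero, zero_add]))
  have a7 : C S (H + h2) z1 := (a1.add' a3).of_eq (by apply eo; abel_nf; try simp only [ch2, ch3, ch4, ch5, ch6, add_zero, zero_add]) rfl
  have a8 : C S (H + h2) (z + k') := (a5.add a7).of_eq rfl (by apply eo; abel_nf; try simp only [ch2, ch3, ch4, ch5, ch6, add_zero, zero_add])
  exact ⟨k', hk', (c3'.add a8.symm).of_eq rfl (by apply eo; abel_nf; try simp only [ch2, ch3, ch4, ch5, ch6, add_zero, zero_add])⟩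

/-- additivity in the second variable -/
theorem addZ {z s1 s2 h1 h2 g1 g2 : V} (hz : C S v' z) (hs1 : C S v s1) (hs2 : C S v s2)
    (hh1 : C S p h1) (hh2 : C S p h2) (hg1 : C S p g1) (hg2 : C S p g2)
    (c1 : C S (z + h1) (s1 + g1)) (c2 : C S (z + h2) (s2 + g2)) :
    ∃ h3, C S p h3 ∧ C S (z + h3) (s1 + s2 + (g1 + g2)) := by
  obtain ⟨h3, hh3, c3⟩ := X.addW hz (hs1.add (X.comm _ _ X.hv hg1))
    (hs2.add (X.comm _ _ X.hv hg2)) hh1 hh2 c1 c2
  exact ⟨h3, hh3, c3.of_eq rfl (by apply eo; abel_nf; try simp only [ch2, ch3, ch4, ch5, ch6, add_zero, zero_add])⟩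

/-- additivity in the first variable -/
theorem addS {s z1 z2 h1 h2 g1 g2 : V} (hs : C S v s) (hz1 : C S v' z1) (hz2 : C S v' z2)
    (hh1 : C S p h1) (hh2 : C S p h2) (hg1 : C S p g1) (hg2 : C S p g2)
    (c1 : C S (z1 + h1) (s + g1)) (c2 : C S (z2 + h2) (s + g2)) :
    ∃ g3, C S p g3 ∧ C S (z1 + z2 + (h1 + h2)) (s + g3) := by
  obtain ⟨h3, hh3, c3⟩ := X.swap.addZ hs hz1 hz2 hg1 hg2 hh1 hh2 c1.symm c2.symm
  exact ⟨h3, hh3, c3.symm⟩

/-- `k` is a correction for the decomposition `w = z + s`, with `y = z0 + s0` -/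
def K (_X : Ctx S p v v') (z0 s0 z s k : V) : Prop :=
  C S p k ∧ (∃ h, C S p h ∧ C S (z + h) (s0 + k)) ∧ (∃ h, C S p h ∧ C S (z0 + k) (s + h))

theorem exists_K {z0 s0 z s : V} (hz0 : C S v' z0) (hs0 : C S v s0) (hz : C S v' z)
    (hs : C S v s) : ∃ k, X.K z0 s0 z s k := by
  obtain ⟨h0, hh0, c0⟩ := X.shift hz hs0
  obtain ⟨h1, hh1, c1⟩ := X.shift hz0 hs
  obtain ⟨a, b, ha, hb, haz, hbs, e⟩ := X.sum hz hs (hh0.add hh1)
  refine ⟨h0 + a, hh0.add ha, ⟨h0, hh0, ?_⟩, ⟨h1, hh1, ?_⟩⟩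
  · exact (c0.add (haz.symm.add' (X.comm _ _ hh0 ha))).of_eq rfl (by apply eo; abel_nf; try simp only [ch2, ch3, ch4, ch5, ch6, add_zero, zero_add])
  · have e' : h0 + a = h1 + b := by
      have : a = h0 + h1 + b := by rw [e]; exact (by apply eo; abel_nf; try simp only [ch2, ch3, ch4, ch5, ch6, add_zero, zero_add])
      rw [this]; exact (by apply eo; abel_nf; try simp only [ch2, ch3, ch4, ch5, ch6, add_zero, zero_add])
    rw [e']
    exact (c1.add' (hbs.add (X.comm _ _ hb hh1))).of_eq (by apply eo; abel_nf; try simp only [ch2, ch3, ch4, ch5, ch6, add_zero, zero_add]) rfl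

theorem three {z0 s0 z1 s1 z2 s2 k1 k2 k3 : V} (hz0 : C S v' z0) (hs0 : C S v s0)
    (hz1 : C S v' z1) (hs1 : C S v s1) (hz2 : C S v' z2) (hs2 : C S v s2)
    (K1 : X.K z0 s0 z1 s1 k1) (K2 : X.K z0 s0 z2 s2 k2)
    (K3 : X.K z0 s0 (z1 + z2) (s1 + s2) k3) :
    S.q (z1 + s1) (k1 + k3) = S.q (z2 + s2) (k2 + k3) := by
  obtain ⟨hk1, ⟨h1, hh1, c1⟩, ⟨g1, hg1, d1⟩⟩ := K1
  obtain ⟨hk2, ⟨h2, hh2, c2⟩, ⟨g2, hg2, d2⟩⟩ := K2
  obtain ⟨hk3, ⟨h3, hh3, c3⟩, ⟨g3, hg3, d3⟩⟩ := K3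
  -- first half
  have A : S.q z1 (k1 + k3) = S.q z2 (k2 + k3) := by
    obtain ⟨r, hr, c4⟩ := X.addS hs0 hz1 hz2 hh1 hh2 hk1 hk2 c1 c2
    obtain ⟨u1, u2⟩ := X.uniq (hz1.add hz2) hs0 hk3 hh3 hr (hh1.add hh2) c3 c4
    have c5 : C S (z1 + z2 + (h1 + h2)) (s0 + k3) := by
      have : C S (h3 + (h1 + h2)) (s0 + k3) := u2.add (X.comm _ _ (hh3.add (hh1.add hh2)) hk3)
      exact (c3.add' this).of_eq (by apply eo; abel_nf; try simp only [ch2, ch3, ch4, ch5, ch6, add_zero, zero_add]) rfl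
    have e1 : S.q (z1 + h1) (s0 + k3) = S.q (z2 + h2) (s0 + k3) :=
      q_eq' (c5.of_eq (by apply eo; abel_nf; try simp only [ch2, ch3, ch4, ch5, ch6, add_zero, zero_add]) rfl)
    have f1 : S.q (z1 + h1) (s0 + k3) = S.q (z1 + h1) (k1 + k3) :=
      q_eq (c1.of_eq rfl (by apply eo; abel_nf; try simp only [ch2, ch3, ch4, ch5, ch6, add_zero, zero_add]))
    have f2' : S.q (z2 + h2) (s0 + k3) = S.q (z2 + h2) (k2 + k3) :=
      q_eq (c2.of_eq rfl (by apply eo; abel_nf; try simp only [ch2, ch3, ch4, ch5, ch6, add_zero, zero_add]))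
    have g1' : S.q (z1 + h1) (k1 + k3) = S.q z1 (k1 + k3) :=
      q_eq' ((X.comm _ _ hh1 (hk1.add hk3)).of_eq (by apply eo; abel_nf; try simp only [ch2, ch3, ch4, ch5, ch6, add_zero, zero_add]) rfl)
    have g2' : S.q (z2 + h2) (k2 + k3) = S.q z2 (k2 + k3) :=
      q_eq' ((X.comm _ _ hh2 (hk2.add hk3)).of_eq (by apply eo; abel_nf; try simp only [ch2, ch3, ch4, ch5, ch6, add_zero, zero_add]) rfl)
    rw [← g1', ← g2', ← f1, ← f2', e1]
  have B : S.q s1 (k1 + k3) = S.q s2 (k2 + k3) := by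
    obtain ⟨r, hr, c4⟩ := X.addZ hz0 hs1 hs2 hk1 hk2 hg1 hg2 d1 d2
    obtain ⟨u1, u2⟩ := X.uniq hz0 (hs1.add hs2) hg3 hk3 (hg1.add hg2) hr d3 c4
    have c5 : C S (z0 + k3) (s1 + s2 + (g1 + g2)) := by
      have : C S (g3 + (g1 + g2)) (z0 + k3) := u1.add (X.comm _ _ (hg3.add (hg1.add hg2)) hk3)
      exact (d3.add this.symm).of_eq rfl (by apply eo; abel_nf; try simp only [ch2, ch3, ch4, ch5, ch6, add_zero, zero_add])
    have e1 : S.q (s1 + g1) (z0 + k3) = S.q (s2 + g2) (z0 + k3) :=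
      q_eq' (c5.symm.of_eq (by apply eo; abel_nf; try simp only [ch2, ch3, ch4, ch5, ch6, add_zero, zero_add]) rfl)
    have f1 : S.q (s1 + g1) (z0 + k3) = S.q (s1 + g1) (k1 + k3) :=
      q_eq (d1.symm.of_eq rfl (by apply eo; abel_nf; try simp only [ch2, ch3, ch4, ch5, ch6, add_zero, zero_add]))
    have f2' : S.q (s2 + g2) (z0 + k3) = S.q (s2 + g2) (k2 + k3) :=
      q_eq (d2.symm.of_eq rfl (by apply eo; abel_nf; try simp only [ch2, ch3, ch4, ch5, ch6, add_zero, zero_add]))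
    have g1' : S.q (s1 + g1) (k1 + k3) = S.q s1 (k1 + k3) :=
      q_eq' ((X.comm _ _ hg1 (hk1.add hk3)).of_eq (by apply eo; abel_nf; try simp only [ch2, ch3, ch4, ch5, ch6, add_zero, zero_add]) rfl)
    have g2' : S.q (s2 + g2) (k2 + k3) = S.q s2 (k2 + k3) :=
      q_eq' ((X.comm _ _ hg2 (hk2.add hk3)).of_eq (by apply eo; abel_nf; try simp only [ch2, ch3, ch4, ch5, ch6, add_zero, zero_add]) rfl)
    rw [← g1', ← g2', ← f1, ← f2', e1]
  rw [S.symm (z1 + s1), S.symm (z2 + s2)]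
  apply ETC.add_common
  · rw [S.symm, A, S.symm]
  · rw [S.symm, B, S.symm]

/-- the value does not depend on the decomposition -/
theorem indep {z0 s0 z s z' s' k k' : V} (hz0 : C S v' z0) (hs0 : C S v s0)
    (hz : C S v' z) (hs : C S v s) (hz' : C S v' z') (hs' : C S v s')
    (e : z + s = z' + s') (K1 : X.K z0 s0 z s k) (K2 : X.K z0 s0 z' s' k') :
    S.q (z + s) (z0 + k) = S.q (z + s) (z0 + k') := by
  have eg : z + z' = s + s' := by
    have : z' = z + s + s' := by rw [e]; exact (by apply eo; abel_nf; try simp only [ch2, ch3, ch4, ch5, ch6, add_zero, zero_add])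
    rw [this]; exact (by apply eo; abel_nf; try simp only [ch2, ch3, ch4, ch5, ch6, add_zero, zero_add])
  have h1 : C S v' (z + z') := hz.add hz'
  have h2 : C S v (z + z') := by rw [eg]; exact hs.add hs'
  have h3 : C S p (z + z') := by
    have := h2.add' h1
    rwa [X.hp] at this
  have hK : X.K z0 s0 (z + z') (z + z') 0 := by
    refine ⟨C.zero p, ⟨z + z', h3, ?_⟩, ⟨z + z', h3, ?_⟩⟩
    · exact (C.zero' _).of_eq (by apply eo; abel_nf; try simp only [ch2, ch3, ch4, ch5, ch6, add_zero, zero_add]) rfl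
    · exact (C.zero _).of_eq rfl (by apply eo; abel_nf; try simp only [ch2, ch3, ch4, ch5, ch6, add_zero, zero_add])
  have := X.three (k1 := k) (k2 := 0) (k3 := k') hz0 hs0 hz hs h1 h2 K1 hK (by
    have e1 : z + (z + z') = z' := (by apply eo; abel_nf; try simp only [ch2, ch3, ch4, ch5, ch6, add_zero, zero_add])
    have e2 : s + (z + z') = s' := by rw [eg]; exact (by apply eo; abel_nf; try simp only [ch2, ch3, ch4, ch5, ch6, add_zero, zero_add])
    rw [e1, e2]; exact K2)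
  have h0 : z + z' + (z + z') = 0 := (by apply eo; abel_nf; try simp only [ch2, ch3, ch4, ch5, ch6, add_zero, zero_add])
  rw [h0, ETC.q_zero_left] at this
  apply q_eq
  exact C.of_eq (S := S) this rfl (by apply eo; abel_nf; try simp only [ch2, ch3, ch4, ch5, ch6, add_zero, zero_add])

end Ctx

end Pool.Agent.ETCH
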