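import Pool.Agent.ETCG.Basic

/-!
# Product lemma for quaternionic structures, `-1 ∈ V_p`: basic facts (helper13)

Transfer of `Pool.Agent.ETCP.Basic` (helper29) from `-1 = 1` to arbitrary `-1 = e ∈ V_p`.
-/

set_option autoImplicit false
set_option linter.unusedSimpArgs false
set_option linter.unusedVariables false
set_option linter.unusedSectionVars false
set_option linter.unnecessarySeqFocus false

namespace Pool.Agent.ETCH

open Pool.Agent.Helper58.PLine (QData)
open Pool.Agent.ETCP
open Pool.Agent.ETCG (cof C.diag C.diag')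



variable {V Q : Type} [AddCommGroup V] [Module (ZMod 2) V] {S : QData V Q}

theorem dg (x : V) : C S x (x + S.e) := S.diag x

theorem dg' (x : V) : C S (x + S.e) x := (dg x).symm

variable (S) in
/-- `V_p` is commutative, `v + v' = p` in `V_p`, and `V_v + V_v' = V` -/
structure Ctx (p v v' : V) : Prop where
  pe : C S p S.e
  hp : v + v' = p
  hv : C S p v
  comm : ∀ g h, C S p g → C S p h → C S g h
  full : ∀ w, ∃ z s, C S v' z ∧ C S v s ∧ w = z + s

namespace Ctx

variable {p v v' : V} (X : Ctx S p v v')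
include X

theorem pp : C S p p := by exact cof ((dg p).add X.pe) (by apply eo; abel_nf; try simp only [ch2, ch3, ch4, ch5, ch6, add_zero, zero_add]) (by apply eo; abel_nf; try simp only [ch2, ch3, ch4, ch5, ch6, add_zero, zero_add])

/-- `e` commutes with `V_p` -/
theorem he {h : V} (hh : C S p h) : C S h S.e := X.comm _ _ hh X.pe

theorem sf {h : V} (hh : C S p h) : C S h h := X.comm _ _ hh hh

theorem hv' : C S p v' := (X.hv.add X.pp).of_eq rfl (by rw [← X.hp]; exact (by apply eo; abel_nf; try simp only [ch2, ch3, ch4, ch5, ch6, add_zero, zero_add]))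

theorem swap : Ctx S p v' v where
  pe := X.pe
  hp := by rw [← X.hp, add_comm]
  hv := X.hv'
  comm := X.comm
  full := by
    intro w
    obtain ⟨z, s, h1, h2, h3⟩ := X.full w
    exact ⟨s, z, h2, h1, by rw [h3, add_comm]⟩

/-- `X_(z+s) = X_z ∩ X_s` -/
theorem split {z s h : V} (hz : C S v' z) (hs : C S v s) (hh : C S p h) (hc : C S h (z + s)) :
    C S h z ∧ C S h s := by
  have e1 : S.q h z = S.q h s := q_eq hc
  have e2 : S.q (h + v') z = S.q h z := q_eq' (hz.of_eq (by apply eo; abel_nf; try simp only [ch2, ch3, ch4, ch5, ch6, add_zero, zero_add]) rfl)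
  have e3 : S.q (h + v) s = S.q h s := q_eq' (hs.of_eq (by apply eo; abel_nf; try simp only [ch2, ch3, ch4, ch5, ch6, add_zero, zero_add]) rfl)
  obtain ⟨t, h1, h2, h3⟩ := link (e2.trans (e1.trans e3.symm))
  have h4 : C S p t := h3.of_eq (by rw [← X.hp]; exact (by apply eo; abel_nf; try simp only [ch2, ch3, ch4, ch5, ch6, add_zero, zero_add])) rfl
  have h5 : C S (h + v') t := X.comm _ _ (hh.add X.hv') h4
  have h6 : C S (h + v') z := (h1.add h5).of_eq rfl (by apply eo; abel_nf; try simp only [ch2, ch3, ch4, ch5, ch6, add_zero, zero_add])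
  have h7 : C S h z := (h6.add' hz).of_eq (by apply eo; abel_nf; try simp only [ch2, ch3, ch4, ch5, ch6, add_zero, zero_add]) rfl
  exact ⟨h7, (hc.add h7).of_eq rfl (by apply eo; abel_nf; try simp only [ch2, ch3, ch4, ch5, ch6, add_zero, zero_add])⟩

/-- there is a common shift in `V_p` -/
theorem shift {z s : V} (hz : C S v' z) (hs : C S v s) : ∃ h, C S p h ∧ C S (z + h) (s + h) := by
  have e1 : S.q (p + z + s + S.e) v' = S.q s v' := by
    apply q_eq'
    exact cof ((X.hv'.add' hz.symm).add' (X.he X.hv').symm) (by apply eo; abel_nf; try simp only [ch2, ch3, ch4, ch5, ch6, add_zero, zero_add]) (by apply eo; abel_nf; try simp only [ch2, ch3, ch4, ch5, ch6, add_zero, zero_add])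
  have e2 : S.q s v' = S.q p s := by
    rw [S.symm s]
    exact q_eq' ((hs).of_eq (by rw [← X.hp]; exact (by apply eo; abel_nf; try simp only [ch2, ch3, ch4, ch5, ch6, add_zero, zero_add])) rfl)
  obtain ⟨t, h1, h2, h3⟩ := link (e1.trans e2)
  refine ⟨s + t, h2, ?_⟩
  have h4 : C S (z + s + S.e) t := h3.of_eq (by apply eo; abel_nf; try simp only [ch2, ch3, ch4, ch5, ch6, add_zero, zero_add]) rfl
  exact cof (h4.add' (dg' t)) (by apply eo; abel_nf; try simp only [ch2, ch3, ch4, ch5, ch6, add_zero, zero_add]) (by apply eo; abel_nf; try simp only [ch2, ch3, ch4, ch5, ch6, add_zero, zero_add])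

/-- values of `q` on `V_p × V_v'` and on `V_p × V_v` only meet in `0` -/
theorem meet {z s h h' : V} (hz : C S v' z) (hs : C S v s) (hh : C S p h) (hh' : C S p h')
    (e : S.q h z = S.q h' s) : C S h z ∧ C S h' s := by
  obtain ⟨t, h1, h2, h3⟩ := link e
  obtain ⟨z1, s1, hz1, hs1, rfl⟩ := X.full t
  obtain ⟨a1, a2⟩ := X.split (hz.add hz1) hs1 hh (h1.of_eq rfl (by apply eo; abel_nf; try simp only [ch2, ch3, ch4, ch5, ch6, add_zero, zero_add]))
  obtain ⟨a3, a4⟩ := X.split hz1 (hs.add hs1) hh' (h2.of_eq rfl (by apply eo; abel_nf; try simp only [ch2, ch3, ch4, ch5, ch6, add_zero, zero_add]))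
  obtain ⟨a5, a6⟩ := X.split hz1 hs1 (hh.add hh') h3
  have a7 : C S h z1 := (a5.add' a3).of_eq (by apply eo; abel_nf; try simp only [ch2, ch3, ch4, ch5, ch6, add_zero, zero_add]) rfl
  have a8 : C S h' s1 := (a6.add' a2).of_eq (by apply eo; abel_nf; try simp only [ch2, ch3, ch4, ch5, ch6, add_zero, zero_add]) rfl
  exact ⟨(a1.add a7).of_eq rfl (by apply eo; abel_nf; try simp only [ch2, ch3, ch4, ch5, ch6, add_zero, zero_add]), (a4.add a8).of_eq rfl (by apply eo; abel_nf; try simp only [ch2, ch3, ch4, ch5, ch6, add_zero, zero_add])⟩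

/-- `X_z + X_s = V_p` -/
theorem sum {z s g : V} (hz : C S v' z) (hs : C S v s) (hg : C S p g) :
    ∃ a b, C S p a ∧ C S p b ∧ C S a z ∧ C S b s ∧ g = a + b := by
  have hvg : C S v g := X.comm _ _ X.hv hg
  obtain ⟨h0, hh0, c0⟩ := X.shift hz hs
  obtain ⟨hg', hhg, cg⟩ := X.shift hz (hs.add hvg)
  have hk : C S p (h0 + g + hg') := (hh0.add hg).add hhg
  -- `r = z + s + e`
  have r0 : C S (z + s + S.e) (s + h0) := by exact cof (c0.add' (dg' (s + h0))) (by apply eo; abel_nf; try simp only [ch2, ch3, ch4, ch5, ch6, add_zero, zero_add]) (by apply eo; abel_nf; try simp only [ch2, ch3, ch4, ch5, ch6, add_zero, zero_add])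
  have rg : C S (z + s + S.e + g) (s + g + hg') := by exact cof (cg.add' (dg' (s + g + hg'))) (by apply eo; abel_nf; try simp only [ch2, ch3, ch4, ch5, ch6, add_zero, zero_add]) (by apply eo; abel_nf; try simp only [ch2, ch3, ch4, ch5, ch6, add_zero, zero_add])
  have e1 : S.q (z + s + S.e) (s + g + hg') = S.q g (s + g + hg') :=
    q_eq' rg
  have e2 : S.q g (s + g + hg') = S.q g s := by
    apply q_eq
    exact ((X.sf hg).add (X.comm _ _ hg hhg)).of_eq rfl (by apply eo; abel_nf; try simp only [ch2, ch3, ch4, ch5, ch6, add_zero, zero_add])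
  have e3 : S.q (z + s + S.e) (h0 + g + hg') = S.q (z + s + S.e) (s + g + hg') := by
    apply q_eq
    exact r0.of_eq rfl (by apply eo; abel_nf; try simp only [ch2, ch3, ch4, ch5, ch6, add_zero, zero_add])
  have e4' : S.q (h0 + g + hg') (z + s) = S.q (h0 + g + hg') (z + s + S.e) := by
    apply q_eq
    exact cof (X.he hk) (by apply eo; abel_nf; try simp only [ch2, ch3, ch4, ch5, ch6, add_zero, zero_add]) (by apply eo; abel_nf; try simp only [ch2, ch3, ch4, ch5, ch6, add_zero, zero_add])
  have e4 : S.q g s = S.q (h0 + g + hg') (z + s) := by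
    rw [e4', S.symm (h0 + g + hg'), e3, e1, e2]
  obtain ⟨t, h1, h2, h3⟩ := link e4
  obtain ⟨z1, s1, hz1, hs1, rfl⟩ := X.full t
  obtain ⟨a1, a2⟩ := X.split hz1 (hs.add hs1) hg (h1.of_eq rfl (by apply eo; abel_nf; try simp only [ch2, ch3, ch4, ch5, ch6, add_zero, zero_add]))
  obtain ⟨a3, a4⟩ := X.split (hz.add hz1) (hs.add hs1) hk (h2.of_eq rfl (by apply eo; abel_nf; try simp only [ch2, ch3, ch4, ch5, ch6, add_zero, zero_add]))
  obtain ⟨a5, a6⟩ := X.split hz1 hs1 (hg.add hk) h3
  refine ⟨h0 + g + hg', g + (h0 + g + hg'), hk, hg.add hk, ?_, ?_, (by apply eo; abel_nf; try simp only [ch2, ch3, ch4, ch5, ch6, add_zero, zero_add])⟩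
  · have b1 : C S (h0 + g + hg') z1 := (a5.add' a1).of_eq (by apply eo; abel_nf; try simp only [ch2, ch3, ch4, ch5, ch6, add_zero, zero_add]) rfl
    exact (a3.add b1).of_eq rfl (by apply eo; abel_nf; try simp only [ch2, ch3, ch4, ch5, ch6, add_zero, zero_add])
  · have b2 : C S (g + (h0 + g + hg')) (s + s1) := a2.add' a4
    exact (b2.add a6).of_eq rfl (by apply eo; abel_nf; try simp only [ch2, ch3, ch4, ch5, ch6, add_zero, zero_add])

/-- uniqueness of the shifts modulo `X_s`, `X_z` -/
theorem uniq {z s h h' g g' : V} (hz : C S v' z) (hs : C S v s) (hh : C S p h) (hh' : C S p h')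
    (hg : C S p g) (hg' : C S p g') (c1 : C S (z + h') (s + h)) (c2 : C S (z + g') (s + g)) :
    C S (h + g) z ∧ C S (h' + g') s := by
  obtain ⟨b, a, hb, ha, hbz, has, e1⟩ := X.sum hz hs (hh.add hg)
  obtain ⟨b', a', hb', ha', hbz', has', e2⟩ := X.sum hz hs (hh'.add hg')
  have c3 : C S (z + g') (s + g + b) :=
    c2.add (hbz.symm.add' (X.comm _ _ hg' hb))
  have e3 : s + g + b = s + h + a := by
    have : b = h + g + a := by rw [e1]; exact (by apply eo; abel_nf; try simp only [ch2, ch3, ch4, ch5, ch6, add_zero, zero_add])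
    rw [this]; exact (by apply eo; abel_nf; try simp only [ch2, ch3, ch4, ch5, ch6, add_zero, zero_add])
  have c4 : C S a' (s + h + a) := (has'.add (X.comm _ _ ha' hh)).add (X.comm _ _ ha' ha)
  have e4 : z + g' + a' = z + h' + b' := by
    have : a' = h' + g' + b' := by rw [e2]; exact (by apply eo; abel_nf; try simp only [ch2, ch3, ch4, ch5, ch6, add_zero, zero_add])
    rw [this]; exact (by apply eo; abel_nf; try simp only [ch2, ch3, ch4, ch5, ch6, add_zero, zero_add])
  rw [e3] at c3
  have c5 : C S (z + h' + b') (s + h + a) := by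
    rw [← e4]; exact c3.add' c4
  have k1 : S.q (z + h') (s + h + a) = S.q b' (s + h + a) := q_eq' c5
  have k2 : S.q b' (s + h + a) = S.q b' s := by
    apply q_eq
    exact ((X.comm _ _ hb' hh).add (X.comm _ _ hb' ha)).of_eq rfl (by apply eo; abel_nf; try simp only [ch2, ch3, ch4, ch5, ch6, add_zero, zero_add])
  have k3 : S.q (z + h') (s + h + a) = S.q (z + h') a := by
    apply q_eq
    exact c1.of_eq rfl (by apply eo; abel_nf; try simp only [ch2, ch3, ch4, ch5, ch6, add_zero, zero_add])
  have k4 : S.q (z + h') a = S.q z a := by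
    apply q_eq'
    exact (X.comm _ _ hh' ha).of_eq (by apply eo; abel_nf; try simp only [ch2, ch3, ch4, ch5, ch6, add_zero, zero_add]) rfl
  have k5 : S.q a z = S.q b' s := by
    rw [S.symm a, ← k4, ← k3, k1, k2]
  obtain ⟨m1, m2⟩ := X.meet hz hs ha hb' k5
  constructor
  · rw [e1]; exact hbz.add' m1
  · rw [e2]; exact m2.add' has'

end Ctx

end Pool.Agent.ETCH
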